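import Mathlib

namespace Pool.Agent.OHG

open Finset

/-- An orientation of the complete r-uniform hypergraph on the vertex set Fin n: every edge E
(r-element set of vertices) gets a linear ordering of its vertices, given as a bijection from E
onto the set Fin r of positions. -/
def Orientation (n r : ℕ) : Type :=
  (E : Finset (Fin n)) → E.card = r → ({x // x ∈ E} ≃ Fin r)

/-- The set of positions taken in the edge E by vertices of A. -/
def posSet {n r : ℕ} (D : Orientation n r) (E : Finset (Fin n)) (hE : E.card = r)
    (A : Finset (Fin n)) : Finset (Fin r) :=
  univ.filter (fun i => ((D E hE).symm i : Fin n) ∈ A)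

open Classical in
/-- The degree of A at the position set P: the number of edges E containing A in which the
vertices of A take exactly the positions P. -/
noncomputable def degAt {n r : ℕ} (D : Orientation n r) (A : Finset (Fin n))
    (P : Finset (Fin r)) : ℕ :=
  (univ.filter (fun E : Finset (Fin n) =>
    ∃ hE : E.card = r, A ⊆ E ∧ posSet D E hE A = P)).card

open Classical in
/-- The number of p-subsets A of the vertex set with degree at least k at every p-subset of
positions. -/
noncomputable def fD {n r : ℕ} (D : Orientation n r) (p k : ℕ) : ℕ :=
  ((powersetCard p (univ : Finset (Fin n))).filter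
    (fun A => ∀ P ∈ powersetCard p (univ : Finset (Fin r)), k ≤ degAt D A P)).card

/-- f(n, r, p, k): the minimum over all orientations of the complete r-uniform hypergraph on n
vertices. -/
noncomputable def f (n r p k : ℕ) : ℕ := sInf {m | ∃ D : Orientation n r, fD D p k = m}

/-- The family B of p-sets with the colouring χ has no p-monochromatic edge of the complete
r-uniform hypergraph. -/
def NoMono {n : ℕ} (r p : ℕ) (B : Finset (Finset (Fin n)))
    (χ : Finset (Fin n) → Fin (r.choose p)) : Prop :=
  ∀ E : Finset (Fin n), E.card = r → powersetCard p E ⊆ B →
    ¬ ∃ k, ∀ A ∈ powersetCard p E, χ A = k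

/-- b(H(n, r), p): the largest size of a family of p-subsets of the vertex set that has a
colouring with at most (r choose p) colours without p-monochromatic edge. -/
noncomputable def b (n r p : ℕ) : ℕ :=
  sSup {m | ∃ B : Finset (Finset (Fin n)), B ⊆ powersetCard p univ ∧ B.card = m ∧
    ∃ χ : Finset (Fin n) → Fin (r.choose p), NoMono r p B χ}

/-- The threshold: 5 for m = 2 and m^(m+2) + m otherwise. -/
def threshold (m : ℕ) : ℕ := if m = 2 then 5 else m ^ (m + 2) + m

end Pool.Agent.OHG
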