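import Mathlib

namespace Pool.Agent.OHG

open Finset

variable {α : Type*} [Fintype α] [DecidableEq α]

lemma exists_perm_of_fibers {ι : Type*} [DecidableEq ι] (f g : α → ι)
    (h : ∀ y, (univ.filter (fun x => f x = y)).card = (univ.filter (fun x => g x = y)).card) :
    ∃ σ : Equiv.Perm α, ∀ x, g (σ x) = f x := by
  have he : ∀ y, Nonempty ({x // f x = y} ≃ {x // g x = y}) := by
    intro y
    refine ⟨Fintype.equivOfCardEq ?_⟩
    rw [Fintype.card_subtype, Fintype.card_subtype]
    exact h y
  have e := fun y => (he y).some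
  refine ⟨(Equiv.sigmaFiberEquiv f).symm.trans
    ((Equiv.sigmaCongrRight e).trans (Equiv.sigmaFiberEquiv g)), ?_⟩
  intro x
  simp only [Equiv.trans_apply, Equiv.sigmaFiberEquiv, Equiv.coe_fn_symm_mk,
    Equiv.sigmaCongrRight_apply, Equiv.coe_fn_mk, Sigma.map]
  exact (e (f x) ⟨x, rfl⟩).2

lemma exists_perm_two {A A' B B' : Finset α} (h1 : A.card = B.card) (h2 : A'.card = B'.card)
    (h3 : (A ∩ A').card = (B ∩ B').card) :
    ∃ σ : Equiv.Perm α, A.image σ = B ∧ A'.image σ = B' := by
  have key : ∀ (X X' : Finset α) (y : Bool × Bool),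
      (univ.filter (fun x => (decide (x ∈ X), decide (x ∈ X')) = y)).card =
        (if y.1 then (if y.2 then (X ∩ X').card else X.card - (X ∩ X').card) else
          (if y.2 then X'.card - (X ∩ X').card else
            Fintype.card α - (X.card + X'.card - (X ∩ X').card))) := by
    intro X X' y
    obtain ⟨y1, y2⟩ := y
    cases y1 <;> cases y2 <;> simp only [Prod.mk.injEq, decide_eq_true_eq, decide_eq_false_iff_not,
      if_true, if_false, Bool.false_eq_true]
    · have : (univ.filter (fun x => x ∉ X ∧ x ∉ X')) = (X ∪ X')ᶜ := by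
        ext z; simp
      rw [this, card_compl, card_union]
    · have : (univ.filter (fun x => x ∉ X ∧ x ∈ X')) = X' \ X := by
        ext z; simp [and_comm]
      rw [this, card_sdiff]
    · have : (univ.filter (fun x => x ∈ X ∧ x ∉ X')) = X \ X' := by
        ext z; simp
      rw [this, card_sdiff, inter_comm]
    · have : (univ.filter (fun x => x ∈ X ∧ x ∈ X')) = X ∩ X' := by
        ext z; simp
      rw [this]
  obtain ⟨σ, hσ⟩ := exists_perm_of_fibers
    (fun x => (decide (x ∈ A), decide (x ∈ A'))) (fun x => (decide (x ∈ B), decide (x ∈ B')))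
    (by
      intro y
      rw [key A A' y, key B B' y, h1, h2, h3])
  simp only [Prod.mk.injEq, decide_eq_decide] at hσ
  refine ⟨σ, ?_, ?_⟩
  · ext z
    rw [mem_image]
    constructor
    · rintro ⟨x, hx, rfl⟩; exact (hσ x).1.mpr hx
    · intro hz
      exact ⟨σ.symm z, (hσ _).1.mp (by rw [Equiv.apply_symm_apply]; exact hz),
        Equiv.apply_symm_apply σ z⟩
  · ext z
    rw [mem_image]
    constructor
    · rintro ⟨x, hx, rfl⟩; exact (hσ x).2.mpr hx
    · intro hz
      exact ⟨σ.symm z, (hσ _).2.mp (by rw [Equiv.apply_symm_apply]; exact hz),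
        Equiv.apply_symm_apply σ z⟩

/-- permutations carrying A to B -/
def hit (A B : Finset α) : Finset (Equiv.Perm α) := univ.filter (fun σ => A.image σ = B)

lemma card_hit_eq {A B A' B' : Finset α} (h1 : A.card = A'.card) (h2 : B.card = B'.card) :
    (hit A B).card = (hit A' B').card := by
  obtain ⟨π, hπ, -⟩ := exists_perm_two (A := A') (A' := A') (B := A) (B' := A) h1.symm h1.symm
    (by simp [h1])
  obtain ⟨ρ, hρ, -⟩ := exists_perm_two (A := B) (A' := B) (B := B') (B' := B') h2 h2 (by simp [h2])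
  apply card_bij' (fun σ _ => π.trans (σ.trans ρ)) (fun σ _ => π.symm.trans (σ.trans ρ.symm))
  · intro σ hσ
    simp only [hit, mem_filter, mem_univ, true_and] at hσ ⊢
    rw [← hρ, ← hσ, ← hπ]
    simp only [image_image]
    rfl
  · intro σ hσ
    simp only [hit, mem_filter, mem_univ, true_and] at hσ ⊢
    have e1 : A.image π.symm = A' := by
      rw [← hπ, image_image]; simp
    have e2 : B'.image ρ.symm = B := by
      rw [← hρ, image_image]; simp
    rw [← e2, ← hσ, ← e1]
    simp only [image_image]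
    rfl
  · intro σ hσ
    ext x; simp
  · intro σ hσ
    ext x; simp

lemma hit_total (p : ℕ) (A B : Finset α) (hA : A.card = p) (hB : B.card = p) :
    (powersetCard p (univ : Finset α)).card * (hit A B).card =
      (univ : Finset (Equiv.Perm α)).card := by
  have h1 : (univ : Finset (Equiv.Perm α)).card =
      ∑ B' ∈ powersetCard p (univ : Finset α), (hit A B').card := by
    unfold hit
    rw [← card_eq_sum_card_fiberwise (f := fun σ : Equiv.Perm α => A.image σ)]
    intro σ _
    rw [mem_coe, mem_powersetCard, card_image_of_injective _ σ.injective]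
    exact ⟨subset_univ _, hA⟩
  rw [h1, sum_congr rfl (g := fun _ => (hit A B).card), sum_const, smul_eq_mul]
  intro B' hB'
  exact card_hit_eq rfl ((mem_powersetCard.mp hB').2.trans hB.symm)

/-- If every permutation is hit, every p-subset is used and hits never overlap. -/
theorem hit_all (p : ℕ) (𝒞 : Finset (Finset α)) (c : Finset α → Finset α)
    (h𝒞 : 𝒞 ⊆ powersetCard p univ) (hc : ∀ A ∈ 𝒞, (c A).card = p)
    (hall : ∀ σ : Equiv.Perm α, ∃ A ∈ 𝒞, A.image σ = c A) :
    𝒞 = powersetCard p univ ∧ ∀ A ∈ 𝒞, ∀ A' ∈ 𝒞, A ≠ A' →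
      (c A ∩ c A').card ≠ (A ∩ A').card := by
  classical
  have hcA : ∀ A ∈ 𝒞, A.card = p := fun A hA => (mem_powersetCard.mp (h𝒞 hA)).2
  -- double count
  have hdc : ∑ σ : Equiv.Perm α, (𝒞.filter (fun A => A.image σ = c A)).card =
      ∑ A ∈ 𝒞, (hit A (c A)).card := by
    simp only [hit, card_filter]
    rw [sum_comm]
  have hone : ∀ σ : Equiv.Perm α, 1 ≤ (𝒞.filter (fun A => A.image σ = c A)).card := by
    intro σ
    obtain ⟨A, hA, h⟩ := hall σ
    exact card_pos.mpr ⟨A, mem_filter.mpr ⟨hA, h⟩⟩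
  obtain ⟨A0, hA0, -⟩ := hall 1
  set κ := (hit A0 (c A0)).card with hκ
  have htot := hit_total p A0 (c A0) (hcA A0 hA0) (hc A0 hA0)
  rw [← hκ] at htot
  have hsum : ∑ A ∈ 𝒞, (hit A (c A)).card = 𝒞.card * κ := by
    rw [sum_congr rfl (g := fun _ => κ), sum_const, smul_eq_mul]
    intro A hA
    exact card_hit_eq ((hcA A hA).trans (hcA A0 hA0).symm) ((hc A hA).trans (hc A0 hA0).symm)
  have hle1 : (univ : Finset (Equiv.Perm α)).card ≤ 𝒞.card * κ := by
    rw [← hsum, ← hdc, card_eq_sum_ones]
    exact sum_le_sum (fun σ _ => hone σ)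
  have hle2 : 𝒞.card ≤ (powersetCard p (univ : Finset α)).card := card_le_card h𝒞
  have hpos : 0 < (univ : Finset (Equiv.Perm α)).card := card_pos.mpr ⟨1, mem_univ _⟩
  have hκpos : 0 < κ := by
    rcases Nat.eq_zero_or_pos κ with h | h
    · rw [h, mul_zero] at htot; omega
    · exact h
  have hcard : (powersetCard p (univ : Finset α)).card ≤ 𝒞.card := by
    rw [← htot] at hle1
    exact Nat.le_of_mul_le_mul_right hle1 hκpos
  refine ⟨eq_of_subset_of_card_le h𝒞 hcard, ?_⟩
  intro A hA A' hA' hne heq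
  obtain ⟨σ0, h1, h2⟩ := exists_perm_two (A := A) (A' := A') (B := c A) (B' := c A')
    ((hcA A hA).trans (hc A hA).symm) ((hcA A' hA').trans (hc A' hA').symm) heq.symm
  have htwo : 2 ≤ (𝒞.filter (fun A => A.image σ0 = c A)).card := by
    have : ({A, A'} : Finset (Finset α)) ⊆ 𝒞.filter (fun A => A.image σ0 = c A) := by
      intro X hX
      rw [mem_insert, mem_singleton] at hX
      rcases hX with rfl | rfl
      · exact mem_filter.mpr ⟨hA, h1⟩
      · exact mem_filter.mpr ⟨hA', h2⟩
    rw [← card_pair hne]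
    exact card_le_card this
  have hlt : (univ : Finset (Equiv.Perm α)).card < 𝒞.card * κ := by
    rw [← hsum, ← hdc, card_eq_sum_ones]
    apply sum_lt_sum (fun σ _ => hone σ)
    exact ⟨σ0, mem_univ _, by omega⟩
  have hlt2 : 𝒞.card * κ ≤ (powersetCard p (univ : Finset α)).card * κ :=
    Nat.mul_le_mul_right _ hle2
  omega

end Pool.Agent.OHG
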