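import Pool.Agent.OHG.Two
import Pool.Agent.OHG.Perm
import Pool.Agent.OHG.Defs

namespace Pool.Agent.OHG

open Finset

/-- Rigidity of the pair (r, p). -/
def RigidAt (r p : ℕ) : Prop :=
  ∀ c : Finset (Fin r) → Finset (Fin r), (∀ A, A.card = p → (c A).card = p) → Free p c →
    ∃ P, ∀ A, A.card = p → c A = P

/-- Position sets are numbered by colours. -/
noncomputable def enc (r p : ℕ) :
    {P // P ∈ powersetCard p (univ : Finset (Fin r))} ≃ Fin (r.choose p) :=
  (powersetCard p (univ : Finset (Fin r))).equivFinOfCardEq (by simp)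

lemma b_bdd (n r p : ℕ) : BddAbove {m | ∃ B : Finset (Finset (Fin n)), B ⊆ powersetCard p univ ∧
    B.card = m ∧ ∃ χ : Finset (Fin n) → Fin (r.choose p), NoMono r p B χ} := by
  refine ⟨n.choose p, ?_⟩
  rintro m ⟨B, hB, rfl, -⟩
  have := card_le_card hB
  simpa using this

lemma b_mem (n r p : ℕ) (hpr : p ≤ r) : ∃ B : Finset (Finset (Fin n)), B ⊆ powersetCard p univ ∧
    B.card = b n r p ∧ ∃ χ : Finset (Fin n) → Fin (r.choose p), NoMono r p B χ := by
  have hne : Set.Nonempty {m | ∃ B : Finset (Finset (Fin n)), B ⊆ powersetCard p univ ∧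
      B.card = m ∧ ∃ χ : Finset (Fin n) → Fin (r.choose p), NoMono r p B χ} := by
    refine ⟨0, ∅, by simp, by simp, fun _ => ⟨0, Nat.choose_pos hpr⟩, ?_⟩
    intro E hE hsub
    exfalso
    obtain ⟨t, ht1, ht2⟩ := exists_subset_card_eq (s := E) (n := p) (by omega)
    have := hsub (mem_powersetCard.mpr ⟨ht1, ht2⟩)
    simp at this
  exact Nat.sSup_mem hne (b_bdd n r p)

/-- Lower bound: f + b is at least the number of p-sets. -/
lemma lower {n r p : ℕ} (D : Orientation n r) :
    n.choose p ≤ fD D p 1 + b n r p := by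
  classical
  set X := powersetCard p (univ : Finset (Fin n)) with hX
  set B := X.filter (fun A => ¬ ∀ P ∈ powersetCard p (univ : Finset (Fin r)), 1 ≤ degAt D A P)
    with hB
  have hcard : fD D p 1 + B.card = n.choose p := by
    have h1 : (X.filter (fun A => ∀ P ∈ powersetCard p (univ : Finset (Fin r)),
        1 ≤ degAt D A P)).card + B.card = X.card := card_filter_add_card_filter_not _
    have h2 : X.card = n.choose p := by simp [hX]
    have h3 : fD D p 1 = (X.filter (fun A => ∀ P ∈ powersetCard p (univ : Finset (Fin r)),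
        1 ≤ degAt D A P)).card := by
      unfold fD
      congr!
    omega
  have hmiss : ∀ A ∈ B, ∃ P, ∃ hP : P ∈ powersetCard p (univ : Finset (Fin r)),
      degAt D A P = 0 := by
    intro A hA
    have := (mem_filter.mp hA).2
    push Not at this
    obtain ⟨P, hP, h⟩ := this
    exact ⟨P, hP, by omega⟩
  choose! P hP hdeg using hmiss
  by_cases hBe : B = ∅
  · rw [hBe] at hcard
    simp at hcard
    omega
  obtain ⟨A0, hA0⟩ := nonempty_iff_ne_empty.mpr hBe
  let χ : Finset (Fin n) → Fin (r.choose p) := fun A =>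
    if h : A ∈ B then enc r p ⟨P A, hP A h⟩ else enc r p ⟨P A0, hP A0 hA0⟩
  have hχ : ∀ A (h : A ∈ B), χ A = enc r p ⟨P A, hP A h⟩ := fun A h => dif_pos h
  have hNM : NoMono r p B χ := by
    rintro E hE hsub ⟨k, hk⟩
    have hcol : ∀ A ∈ powersetCard p E, P A = ((enc r p).symm k).1 := by
      intro A hA
      have h1 := hk A hA
      rw [hχ A (hsub hA)] at h1
      rw [← h1]
      simp
    set Q := ((enc r p).symm k).1 with hQ
    have hQc : Q.card = p := (mem_powersetCard.mp ((enc r p).symm k).2).2
    let A := Q.image (fun i => ((D E hE).symm i : Fin n))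
    have hinj : Function.Injective (fun i => ((D E hE).symm i : Fin n)) := by
      intro i j hij
      exact (D E hE).symm.injective (Subtype.ext hij)
    have hAE : A ∈ powersetCard p E := by
      rw [mem_powersetCard]
      constructor
      · intro x hx
        obtain ⟨i, -, rfl⟩ := mem_image.mp hx
        exact ((D E hE).symm i).2
      · rw [card_image_of_injective _ hinj, hQc]
    have hpos : posSet D E hE A = Q := by
      ext i
      simp only [posSet, mem_filter, mem_univ, true_and, A, mem_image]
      constructor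
      · rintro ⟨j, hj, hji⟩
        rw [← hinj hji]; exact hj
      · intro hi
        exact ⟨i, hi, rfl⟩
    have hd := hdeg A (hsub hAE)
    rw [hcol A hAE, degAt, card_eq_zero] at hd
    have : E ∈ (univ.filter (fun E : Finset (Fin n) =>
        ∃ hE : E.card = r, A ⊆ E ∧ posSet D E hE A = Q)) :=
      mem_filter.mpr ⟨mem_univ _, hE, (mem_powersetCard.mp hAE).1, hpos⟩
    rw [hd] at this
    simp at this
  have hle : B.card ≤ b n r p := by
    apply le_csSup (b_bdd n r p)
    exact ⟨B, filter_subset _ _, rfl, χ, hNM⟩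
  omega

/-- A good order of one edge. -/
lemma good_order {n r p : ℕ} (hrig : RigidAt r p) (B : Finset (Finset (Fin n)))
    (χ : Finset (Fin n) → Fin (r.choose p)) (hNM : NoMono r p B χ) (E : Finset (Fin n))
    (hE : E.card = r) :
    ∃ g : {x // x ∈ E} ≃ Fin r, ∀ A ∈ B, A ⊆ E → A.card = p →
      univ.filter (fun i => ((g.symm i : Fin n)) ∈ A) ≠ ((enc r p).symm (χ A)).1 := by
  classical
  by_contra hno
  push Not at hno
  let e0 : {x // x ∈ E} ≃ Fin r := E.equivFinOfCardEq hE
  let back : Finset (Fin r) → Finset (Fin n) := fun X => X.image (fun i => (e0.symm i : Fin n))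
  have hinj : Function.Injective (fun i => (e0.symm i : Fin n)) := by
    intro i j hij
    exact e0.symm.injective (Subtype.ext hij)
  have hbackc : ∀ X, (back X).card = X.card := fun X => card_image_of_injective _ hinj
  have hbackE : ∀ X, back X ⊆ E := by
    intro X x hx
    obtain ⟨i, -, rfl⟩ := mem_image.mp hx
    exact (e0.symm i).2
  let c : Finset (Fin r) → Finset (Fin r) := fun X => ((enc r p).symm (χ (back X))).1
  have hc : ∀ X, (c X).card = p := fun X =>
    (mem_powersetCard.mp ((enc r p).symm (χ (back X))).2).2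
  let 𝒞 : Finset (Finset (Fin r)) :=
    (powersetCard p (univ : Finset (Fin r))).filter (fun X => back X ∈ B)
  obtain ⟨h1, h2⟩ := hit_all p 𝒞 c (filter_subset _ _) (fun X _ => hc X) (by
    intro σ
    obtain ⟨A, hAB, hAE, hAp, hA⟩ := hno (e0.trans σ)
    -- X = positions of A under e0
    let X : Finset (Fin r) := univ.filter (fun i => (e0.symm i : Fin n) ∈ A)
    have hbX : back X = A := by
      ext x
      simp only [back, X, mem_image, mem_filter, mem_univ, true_and]
      constructor
      · rintro ⟨i, hi, rfl⟩; exact hi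
      · intro hx
        refine ⟨e0 ⟨x, hAE hx⟩, ?_, ?_⟩
        · simpa using hx
        · simp
    refine ⟨X, ?_, ?_⟩
    · rw [mem_filter, mem_powersetCard]
      refine ⟨⟨subset_univ _, ?_⟩, ?_⟩
      · rw [← hbackc, hbX, hAp]
      · rw [hbX]; exact hAB
    · change X.image σ = ((enc r p).symm (χ (back X))).1
      rw [hbX, ← hA]
      ext j
      rw [mem_filter, mem_image]
      constructor
      · rintro ⟨i, hi, rfl⟩
        refine ⟨mem_univ _, ?_⟩
        have hi2 := (mem_filter.mp hi).2
        simpa using hi2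
      · rintro ⟨-, hj⟩
        refine ⟨σ.symm j, mem_filter.mpr ⟨mem_univ _, ?_⟩, by simp⟩
        simpa using hj)
  have hfree : Free p c := by
    intro X X' hX hX' hne
    apply h2 X ?_ X' ?_ hne
    · rw [h1]; exact mem_powersetCard.mpr ⟨subset_univ _, hX⟩
    · rw [h1]; exact mem_powersetCard.mpr ⟨subset_univ _, hX'⟩
  obtain ⟨P, hP⟩ := hrig c (fun X _ => hc X) hfree
  -- every p-subset of E is back X
  have hrep : ∀ A ∈ powersetCard p E, ∃ X : Finset (Fin r), X.card = p ∧ back X = A := by
    intro A hA
    rw [mem_powersetCard] at hA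
    refine ⟨univ.filter (fun i => (e0.symm i : Fin n) ∈ A), ?_, ?_⟩
    · rw [← hbackc]
      have : back (univ.filter (fun i => (e0.symm i : Fin n) ∈ A)) = A := by
        ext x
        simp only [back, mem_image, mem_filter, mem_univ, true_and]
        constructor
        · rintro ⟨i, hi, rfl⟩; exact hi
        · intro hx
          refine ⟨e0 ⟨x, hA.1 hx⟩, ?_, ?_⟩
          · simpa using hx
          · simp
      rw [this, hA.2]
    · ext x
      simp only [back, mem_image, mem_filter, mem_univ, true_and]
      constructor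
      · rintro ⟨i, hi, rfl⟩; exact hi
      · intro hx
        refine ⟨e0 ⟨x, hA.1 hx⟩, ?_, ?_⟩
        · simpa using hx
        · simp
  apply hNM E hE
  · intro A hA
    obtain ⟨X, hXc, rfl⟩ := hrep A hA
    have : X ∈ 𝒞 := by rw [h1]; exact mem_powersetCard.mpr ⟨subset_univ _, hXc⟩
    exact (mem_filter.mp this).2
  · by_cases hex : ∃ X : Finset (Fin r), X.card = p
    · obtain ⟨X0, hX0⟩ := hex
      refine ⟨χ (back X0), ?_⟩
      intro A hA
      obtain ⟨X, hXc, rfl⟩ := hrep A hA
      have e1 : c X = c X0 := by rw [hP X hXc, hP X0 hX0]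
      have e2 : (enc r p).symm (χ (back X)) = (enc r p).symm (χ (back X0)) := Subtype.ext e1
      exact (enc r p).symm.injective e2
    · exfalso
      obtain ⟨A, hAB, hAE, hAp, hA⟩ := hno e0
      obtain ⟨X, hXc, -⟩ := hrep A (mem_powersetCard.mpr ⟨hAE, hAp⟩)
      exact hex ⟨X, hXc⟩

/-- Upper bound, given rigidity. -/
lemma upper {n r p : ℕ} (hpr : p ≤ r) (hrig : RigidAt r p) :
    ∃ D : Orientation n r, fD D p 1 + b n r p ≤ n.choose p := by
  classical
  obtain ⟨B, hB, hBc, χ, hNM⟩ := b_mem n r p hpr
  choose g hg using fun (E : Finset (Fin n)) (hE : E.card = r) =>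
    good_order hrig B χ hNM E hE
  refine ⟨g, ?_⟩
  have hdisj : Disjoint ((powersetCard p (univ : Finset (Fin n))).filter
      (fun A => ∀ P ∈ powersetCard p (univ : Finset (Fin r)), 1 ≤ degAt (g : Orientation n r) A P))
      B := by
    rw [Finset.disjoint_left]
    intro A hA hAB
    rw [mem_filter] at hA
    have h1 := hA.2 ((enc r p).symm (χ A)).1 ((enc r p).symm (χ A)).2
    unfold degAt at h1
    obtain ⟨E, hEm⟩ := card_pos.mp h1
    rw [mem_filter] at hEm
    obtain ⟨-, hE, hAE, hpos⟩ := hEm
    exact hg E hE A hAB hAE (mem_powersetCard.mp hA.1).2 hpos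
  have h2 : fD (g : Orientation n r) p 1 = ((powersetCard p (univ : Finset (Fin n))).filter
      (fun A => ∀ P ∈ powersetCard p (univ : Finset (Fin r)),
        1 ≤ degAt (g : Orientation n r) A P)).card := by
    unfold fD
    congr!
  rw [h2, ← hBc, ← card_union_of_disjoint hdisj]
  have h3 : n.choose p = (powersetCard p (univ : Finset (Fin n))).card := by simp
  rw [h3]
  exact card_le_card (union_subset (filter_subset _ _) hB)

theorem core {n r p : ℕ} (hpr : p ≤ r) (hrig : RigidAt r p) :
    f n r p 1 + b n r p = n.choose p := by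
  obtain ⟨D, hD⟩ := upper (n := n) hpr hrig
  have hne : Set.Nonempty {m | ∃ D : Orientation n r, fD D p 1 = m} := ⟨_, D, rfl⟩
  have h1 : f n r p 1 ≤ fD D p 1 := Nat.sInf_le ⟨D, rfl⟩
  obtain ⟨D', hD'⟩ := Nat.sInf_mem hne
  have h2 : f n r p 1 = fD D' p 1 := hD'.symm
  have h3 := lower (p := p) D'
  omega

lemma rigidAt_of_threshold {r m : ℕ} (hm : 2 ≤ m) (hr : threshold m ≤ r) : RigidAt r m := by
  intro c hc hf
  unfold threshold at hr
  by_cases h2 : m = 2
  · subst h2
    simp only [if_true] at hr
    exact rigid_two c hc hf (by simpa using hr) (by simp)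
  · simp only [h2, if_false] at hr
    have h3 := th_eq m (m + 1) hm
    have h4 : m ^ (m + 1 + 1) = m ^ (m + 2) := rfl
    rw [h4] at h3
    have h5 : m ≤ m ^ (m + 2) := Nat.le_self_pow (by omega) m
    apply rigid_large (by omega) c hc hf
    · rw [Fintype.card_fin]; omega
    · rw [Fintype.card_fin]; omega

lemma rigidAt_dual {r p m : ℕ} (h : p + m = r) (hrig : RigidAt r m) : RigidAt r p := by
  intro c hc hf
  have hd := free_dual (q := p) (m := m) c (by simpa using h) (by simpa using h) hc hf
  obtain ⟨P, hP⟩ := hrig (fun A => (c Aᶜ)ᶜ) (by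
    intro A hA
    have h1 : (Aᶜ).card = p := by rw [card_compl, Fintype.card_fin]; omega
    rw [card_compl, Fintype.card_fin, hc _ h1]
    omega) hd
  refine ⟨Pᶜ, ?_⟩
  intro A hA
  have h1 : (Aᶜ).card = m := by rw [card_compl, Fintype.card_fin]; omega
  have h2 := hP Aᶜ h1
  simp only [compl_compl] at h2
  rw [← h2, compl_compl]

theorem main (n r p m : ℕ) (hm : 2 ≤ m) (hp : p = m ∨ p + m = r) (hr : threshold m ≤ r) :
    f n r p 1 + b n r p = n.choose p := by
  have hmr : m ≤ r := by
    unfold threshold at hr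
    split_ifs at hr <;> omega
  rcases hp with rfl | hp
  · exact core hmr (rigidAt_of_threshold hm hr)
  · exact core (by omega) (rigidAt_dual hp (rigidAt_of_threshold hm hr))

end Pool.Agent.OHG
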