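import Mathlib

/-!
Conflict-free maps on p-subsets are constant when the ground set is large.
-/

namespace Pool.Agent.OHG

open Finset

variable {α β : Type*} [DecidableEq α] [DecidableEq β]

/-- A map on p-subsets is conflict-free if two different p-subsets never have images whose
intersection has the same size as their own intersection. -/
def Free (p : ℕ) (c : Finset α → Finset β) : Prop :=
  ∀ A A' : Finset α, A.card = p → A'.card = p → A ≠ A' → (c A ∩ c A').card ≠ (A ∩ A').card

/-- The numbers 1, 1 + p, 1 + p + p^2, ... -/
def th (p : ℕ) : ℕ → ℕ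
  | 0 => 1
  | k + 1 => p * th p k + 1

lemma th_pos (p k : ℕ) : 1 ≤ th p k := by
  cases k <;> simp [th]

/-- Popular kernels. -/
lemma kernel {p : ℕ} (I : Finset α) (S : α → Finset β) (hS : ∀ x ∈ I, (S x).card ≤ p) :
    ∀ (k : ℕ) (T : Finset β), T.card + k = p + 1 →
      th p k ≤ (I.filter (fun x => T ⊆ S x)).card →
      ∃ T' : Finset β, ∀ A : Finset α, ∀ C : Finset β, A.card ≤ p → C.card ≤ p →
        ∃ x ∈ I.filter (fun x => T' ⊆ S x), x ∉ A ∧ S x ∩ C ⊆ T' := by
  intro k
  induction k with
  | zero =>
    intro T hT hc
    exfalso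
    simp only [th] at hc
    obtain ⟨x, hx⟩ := Finset.card_pos.mp (lt_of_lt_of_le Nat.zero_lt_one hc)
    rw [mem_filter] at hx
    have h1 := card_le_card hx.2
    have h2 := hS x hx.1
    omega
  | succ k ih =>
    intro T hT hc
    by_cases hgood : ∀ A : Finset α, ∀ C : Finset β, A.card ≤ p → C.card ≤ p →
        ∃ x ∈ I.filter (fun x => T ⊆ S x), x ∉ A ∧ S x ∩ C ⊆ T
    · exact ⟨T, hgood⟩
    · push Not at hgood
      obtain ⟨A, C, hA, hC, hbad⟩ := hgood
      -- every x of the filter outside A has an element of C \ T in S x
      have hsub : (I.filter (fun x => T ⊆ S x)) \ A ⊆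
          (C \ T).biUnion (fun y => I.filter (fun x => insert y T ⊆ S x)) := by
        intro x hx
        rw [mem_sdiff] at hx
        have h := hbad x hx.1 hx.2
        rw [Finset.not_subset] at h
        obtain ⟨y, hy, hyT⟩ := h
        rw [mem_inter] at hy
        rw [mem_biUnion]
        refine ⟨y, mem_sdiff.mpr ⟨hy.2, hyT⟩, ?_⟩
        rw [mem_filter]
        have hx1 := (mem_filter.mp hx.1)
        exact ⟨hx1.1, insert_subset hy.1 hx1.2⟩
      have hex : ∃ y ∈ C \ T, th p k ≤ (I.filter (fun x => insert y T ⊆ S x)).card := by
        by_contra hno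
        push Not at hno
        have h1 : ((I.filter (fun x => T ⊆ S x)) \ A).card ≤ (C \ T).card * (th p k - 1) := by
          refine (card_le_card hsub).trans (card_biUnion_le_card_mul _ _ _ ?_)
          intro y hy
          have := hno y hy
          omega
        have h2 : (I.filter (fun x => T ⊆ S x)).card ≤
            ((I.filter (fun x => T ⊆ S x)) \ A).card + A.card := by
          exact card_le_card_sdiff_add_card (s := I.filter (fun x => T ⊆ S x)) (t := A)
        have h3 : (C \ T).card ≤ p := (card_le_card sdiff_subset).trans hC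
        have h4 : (C \ T).card * (th p k - 1) ≤ p * (th p k - 1) := Nat.mul_le_mul_right _ h3
        have h5 : th p (k + 1) = p * th p k + 1 := rfl
        have h6 := th_pos p k
        have h7 : p * (th p k - 1) + p = p * th p k := by
          obtain ⟨m, hm⟩ := Nat.exists_eq_add_of_le h6
          rw [hm]
          have : 1 + m - 1 = m := by omega
          rw [this]; ring
        omega
      obtain ⟨y, hy, hyc⟩ := hex
      refine ih (insert y T) ?_ hyc
      rw [card_insert_of_notMem (mem_sdiff.mp hy).2]
      omega

/-- The tree of kernels: for every set D of size less than p a kernel S D and a set of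
children K D. -/
structure Tree (p : ℕ) (c : Finset α → Finset β) (S : Finset α → Finset β)
    (K : Finset α → Finset α) (j : ℕ) : Prop where
  top : ∀ A, A.card = p → S A = c A
  small : ∀ D, D.card ≤ p → p ≤ D.card + j → (S D).card ≤ p
  out : ∀ D, D.card < p → p ≤ D.card + j → ∀ x ∈ K D, x ∉ D
  mono : ∀ D, D.card < p → p ≤ D.card + j → ∀ x ∈ K D, S D ⊆ S (insert x D)
  pick : ∀ D, D.card < p → p ≤ D.card + j → ∀ A : Finset α, ∀ C : Finset β,
    A.card ≤ p → C.card ≤ p → ∃ x ∈ K D, x ∉ A ∧ S (insert x D) ∩ C ⊆ S D

lemma exists_tree [Fintype α] {p : ℕ} (c : Finset α → Finset β)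
    (hc : ∀ A, A.card = p → (c A).card = p) (hr : p + th p (p + 1) ≤ Fintype.card α) :
    ∀ j, ∃ S K, Tree p c S K j := by
  intro j
  induction j with
  | zero =>
    refine ⟨c, fun _ => ∅, ?_, ?_, ?_, ?_, ?_⟩
    · intro A _; rfl
    · intro D h1 h2; exact (hc D (by omega)).le
    · intro D h1 h2; omega
    · intro D h1 h2; omega
    · intro D h1 h2; omega
  | succ j ih =>
    obtain ⟨S, K, hT⟩ := ih
    -- new kernels at level p - j - 1
    have hker : ∀ D : Finset α, D.card + (j + 1) = p →
        ∃ T' : Finset β, ∀ A : Finset α, ∀ C : Finset β, A.card ≤ p → C.card ≤ p →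
          ∃ x ∈ (univ \ D).filter (fun x => T' ⊆ S (insert x D)), x ∉ A ∧
            S (insert x D) ∩ C ⊆ T' := by
      intro D hD
      apply kernel (p := p) (univ \ D) (fun x => S (insert x D)) ?_ (p + 1) ∅ (by simp)
      · simp only [empty_subset, filter_true]
        rw [card_sdiff_of_subset (subset_univ D), card_univ]
        omega
      · intro x hx
        have hxD : x ∉ D := (mem_sdiff.mp hx).2
        apply hT.small
        · rw [card_insert_of_notMem hxD]; omega
        · rw [card_insert_of_notMem hxD]; omega
    classical
    choose! T' hT' using hker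
    refine ⟨fun D => if D.card + (j + 1) = p then T' D else S D,
      fun D => if D.card + (j + 1) = p then
        (univ \ D).filter (fun x => T' D ⊆ S (insert x D)) else K D, ?_, ?_, ?_, ?_, ?_⟩
    · intro A hA
      have : ¬ (A.card + (j + 1) = p) := by omega
      simp only [this, if_false]
      exact hT.top A hA
    · intro D h1 h2
      by_cases h : D.card + (j + 1) = p
      · simp only [h, if_true]
        obtain ⟨x, hx, -, -⟩ := hT' D h ∅ ∅ (by simp) (by simp)
        rw [mem_filter, mem_sdiff] at hx
        refine (card_le_card hx.2).trans (hT.small _ ?_ ?_)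
        · rw [card_insert_of_notMem hx.1.2]; omega
        · rw [card_insert_of_notMem hx.1.2]; omega
      · simp only [h, if_false]
        exact hT.small D h1 (by omega)
    · intro D h1 h2 x hx
      by_cases h : D.card + (j + 1) = p
      · simp only [h, if_true] at hx
        rw [mem_filter, mem_sdiff] at hx
        exact hx.1.2
      · simp only [h, if_false] at hx
        exact hT.out D h1 (by omega) x hx
    · intro D h1 h2 x hx
      by_cases h : D.card + (j + 1) = p
      · simp only [h, if_true] at hx ⊢
        rw [mem_filter, mem_sdiff] at hx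
        have h3 : ¬ ((insert x D).card + (j + 1) = p) := by
          rw [card_insert_of_notMem hx.1.2]; omega
        simp only [h3, if_false]
        exact hx.2
      · simp only [h, if_false] at hx ⊢
        have hxD := hT.out D h1 (by omega) x hx
        have h3 : ¬ ((insert x D).card + (j + 1) = p) := by
          rw [card_insert_of_notMem hxD]; omega
        simp only [h3, if_false]
        exact hT.mono D h1 (by omega) x hx
    · intro D h1 h2 A C hA hC
      by_cases h : D.card + (j + 1) = p
      · simp only [h, if_true]
        obtain ⟨x, hx, hxA, hxC⟩ := hT' D h A C hA hC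
        refine ⟨x, hx, hxA, ?_⟩
        rw [mem_filter, mem_sdiff] at hx
        have h3 : ¬ ((insert x D).card + (j + 1) = p) := by
          rw [card_insert_of_notMem hx.1.2]; omega
        simp only [h3, if_false]
        exact hxC
      · simp only [h, if_false]
        obtain ⟨x, hx, hxA, hxC⟩ := hT.pick D h1 (by omega) A C hA hC
        refine ⟨x, hx, hxA, ?_⟩
        have hxD := hT.out D h1 (by omega) x hx
        have h3 : ¬ ((insert x D).card + (j + 1) = p) := by
          rw [card_insert_of_notMem hxD]; omega
        simp only [h3, if_false]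
        exact hxC

/-- Descent in the tree. -/
lemma descend {p : ℕ} {c : Finset α → Finset β} {S : Finset α → Finset β}
    {K : Finset α → Finset α} (hT : Tree p c S K p) :
    ∀ (k : ℕ) (D : Finset α), D.card + k = p → ∀ A : Finset α, ∀ C : Finset β,
      A.card ≤ p → C.card ≤ p → ∃ A', A'.card = p ∧ D ⊆ A' ∧ (A' \ D) ∩ A = ∅ ∧ S D ⊆ c A' ∧
        c A' ∩ C ⊆ S D := by
  intro k
  induction k with
  | zero =>
    intro D hD A C _ _
    refine ⟨D, by omega, Subset.refl _, by simp, ?_, ?_⟩
    · rw [hT.top D (by omega)]
    · rw [hT.top D (by omega)]; exact inter_subset_left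
  | succ k ih =>
    intro D hD A C hA hC
    obtain ⟨x, hx, hxA, hxC⟩ := hT.pick D (by omega) (by omega) A C hA hC
    have hxD := hT.out D (by omega) (by omega) x hx
    obtain ⟨A', h1, h2, h3, h4, h5⟩ := ih (insert x D)
      (by rw [card_insert_of_notMem hxD]; omega) A C hA hC
    refine ⟨A', h1, (subset_insert x D).trans h2, ?_, (hT.mono D (by omega) (by omega) x hx).trans h4,
      ?_⟩
    · ext z
      simp only [mem_inter, mem_sdiff, notMem_empty, iff_false, not_and, and_imp]
      intro hz1 hz2 hz3
      by_cases hzx : z = x
      · exact hxA (hzx ▸ hz3)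
      · have : z ∈ (A' \ insert x D) ∩ A := by
          simp [hz1, hz2, hz3, hzx]
        rw [h3] at this
        simp at this
    · intro z hz
      have hz1 := h5 hz
      rw [mem_inter] at hz
      exact hxC (mem_inter.mpr ⟨hz1, hz.2⟩)

/-- Nodes reachable from the root. -/
inductive Reach (p : ℕ) (K : Finset α → Finset α) : Finset α → Prop
  | root : Reach p K ∅
  | step (D : Finset α) (x : α) : Reach p K D → D.card < p → x ∈ K D → Reach p K (insert x D)

lemma kernel_ne {p : ℕ} {c : Finset α → Finset β} {S : Finset α → Finset β}
    {K : Finset α → Finset α} (hc : ∀ A, A.card = p → (c A).card = p) (hf : Free p c)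
    (hT : Tree p c S K p) (D A : Finset α) (hD : D.card < p) (hA : A.card = p) (hDA : D ⊆ A) :
    (S D ∩ c A).card ≠ D.card := by
  obtain ⟨A', h1, h2, h3, h4, h5⟩ := descend hT (p - D.card) D (by omega) A (c A) hA.le (hc A hA).le
  have e1 : A' ∩ A = D := by
    ext z
    rw [mem_inter]
    constructor
    · rintro ⟨hz1, hz2⟩
      by_contra hz3
      have : z ∈ (A' \ D) ∩ A := by simp [hz1, hz2, hz3]
      rw [h3] at this
      simp at this
    · intro hz
      exact ⟨h2 hz, hDA hz⟩
  have e2 : c A' ∩ c A = S D ∩ c A := by
    ext z
    rw [mem_inter, mem_inter]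
    constructor
    · rintro ⟨hz1, hz2⟩
      exact ⟨h5 (mem_inter.mpr ⟨hz1, hz2⟩), hz2⟩
    · rintro ⟨hz1, hz2⟩
      exact ⟨h4 hz1, hz2⟩
  have hne : A' ≠ A := by
    rintro rfl
    rw [inter_self] at e1
    rw [e1] at hA
    omega
  have := hf A' A h1 hA hne
  rw [e1, e2] at this
  exact this

lemma reach_lower {p : ℕ} {c : Finset α → Finset β} {S : Finset α → Finset β}
    {K : Finset α → Finset α} (hc : ∀ A, A.card = p → (c A).card = p) (hf : Free p c)
    (hT : Tree p c S K p) (D : Finset α) (hR : Reach p K D) :
    D.card < p → ∀ A : Finset α, A.card = p → D ⊆ A → D.card + 1 ≤ (S D ∩ c A).card := by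
  induction hR with
  | root =>
    intro h A hA hDA
    have := kernel_ne hc hf hT ∅ A h hA hDA
    simp only [card_empty] at this ⊢
    omega
  | step D x hR hD hx ih =>
    intro h A hA hDA
    have hxD := hT.out D hD (by omega) x hx
    have h1 := ih hD A hA ((subset_insert x D).trans hDA)
    have h2 := kernel_ne hc hf hT (insert x D) A h hA hDA
    have h3 : (S D ∩ c A).card ≤ (S (insert x D) ∩ c A).card :=
      card_le_card (inter_subset_inter_right (hT.mono D hD (by omega) x hx))
    rw [card_insert_of_notMem hxD] at h2 ⊢
    omega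

lemma reach_const [Fintype α] {p : ℕ} {c : Finset α → Finset β} {S : Finset α → Finset β}
    {K : Finset α → Finset α} (hc : ∀ A, A.card = p → (c A).card = p) (hf : Free p c)
    (hT : Tree p c S K p) (hr : 2 * p ≤ Fintype.card α) :
    ∀ (k : ℕ) (D : Finset α), D.card + k + 1 = p → Reach p K D →
      ∃ P : Finset β, ∀ A : Finset α, A.card = p → D ⊆ A → c A = P := by
  intro k
  induction k with
  | zero =>
    intro D hD hR
    refine ⟨S D, ?_⟩
    intro A hA hDA
    have h1 := reach_lower hc hf hT D hR (by omega) A hA hDA
    have h2 := hT.small D (by omega) (by omega)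
    have h3 := hc A hA
    have h4 : (S D ∩ c A).card ≤ (S D).card := card_le_card inter_subset_left
    have h5 : S D ∩ c A = c A := by
      apply eq_of_subset_of_card_le inter_subset_right
      omega
    have h6 : S D ∩ c A = S D := by
      apply eq_of_subset_of_card_le inter_subset_left
      omega
    rw [← h5, h6]
  | succ k ih =>
    intro D hD hR
    -- the constants of the children
    have hch : ∀ x ∈ K D, ∃ P : Finset β, ∀ A : Finset α, A.card = p → insert x D ⊆ A → c A = P := by
      intro x hx
      have hxD := hT.out D (by omega) (by omega) x hx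
      exact ih (insert x D) (by rw [card_insert_of_notMem hxD]; omega)
        (Reach.step D x hR (by omega) hx)
    choose! P hP using hch
    have hPeq : ∀ x ∈ K D, ∀ y ∈ K D, P x = P y := by
      intro x hx y hy
      have h1 : (insert x (insert y D)).card ≤ p := by
        have := card_insert_le x (insert y D)
        have := card_insert_le y D
        omega
      obtain ⟨A, hA1, hA2⟩ := exists_superset_card_eq h1 (by omega : p ≤ Fintype.card α)
      have e1 := hP x hx A hA2 ((insert_subset_insert x (subset_insert y D)).trans hA1)
      have e2 := hP y hy A hA2 ((subset_insert x (insert y D)).trans hA1)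
      rw [← e1, e2]
    obtain ⟨x0, hx0, -, -⟩ := hT.pick D (by omega) (by omega) ∅ ∅ (by simp) (by simp)
    refine ⟨P x0, ?_⟩
    intro A hA hDA
    obtain ⟨x, hx, hxA, -⟩ := hT.pick D (by omega) (by omega) A ∅ hA.le (by simp)
    rw [hPeq x0 hx0 x hx]
    have hxD := hT.out D (by omega) (by omega) x hx
    -- S D is contained in P x
    have hSP : S D ⊆ P x := by
      obtain ⟨A', g1, g2, -, g4, -⟩ := descend hT (k + 1) (insert x D)
        (by rw [card_insert_of_notMem hxD]; omega) ∅ ∅ (by simp) (by simp)
      rw [hP x hx A' g1 g2] at g4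
      exact (hT.mono D (by omega) (by omega) x hx).trans g4
    have hlow := reach_lower hc hf hT D hR (by omega) A hA hDA
    have hlow2 : D.card + 1 ≤ (P x ∩ c A).card :=
      hlow.trans (card_le_card (inter_subset_inter_right hSP))
    by_contra hne
    have hPc : (P x).card = p := by
      obtain ⟨A', g1, g2⟩ := exists_superset_card_eq
        (s := insert x D) (n := p) (by rw [card_insert_of_notMem hxD]; omega)
        (by omega : p ≤ Fintype.card α)
      rw [← hP x hx A' g2 g1]
      exact hc A' g2
    have hlt : (P x ∩ c A).card < p := by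
      by_contra hge
      push Not at hge
      apply hne
      have h5 : P x ∩ c A = c A := by
        apply eq_of_subset_of_card_le inter_subset_right
        rw [hc A hA]; exact hge
      have h6 : P x ∩ c A = P x := by
        apply eq_of_subset_of_card_le inter_subset_left
        rw [hPc]; exact hge
      rw [← h5, h6]
    -- build G
    obtain ⟨D', hD1, hD2, hD3⟩ := exists_subsuperset_card_eq hDA
      (by omega : D.card ≤ (P x ∩ c A).card) (by omega : (P x ∩ c A).card ≤ A.card)
    have hcard : p - 1 - (P x ∩ c A).card ≤ (univ \ insert x A).card := by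
      rw [card_sdiff_of_subset (subset_univ _), card_univ, card_insert_of_notMem hxA]
      omega
    obtain ⟨F, hF1, hF2⟩ := exists_subset_card_eq hcard
    have hxF : x ∉ F := by
      intro h
      have := hF1 h
      simp at this
    have hFA : Disjoint F A := by
      rw [Finset.disjoint_left]
      intro z hz hzA
      have := hF1 hz
      simp only [mem_sdiff, mem_univ, mem_insert, true_and, not_or] at this
      exact this.2 hzA
    have hxD' : x ∉ D' := fun h => hxA (hD2 h)
    have hdis : Disjoint D' F := by
      rw [Finset.disjoint_left]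
      intro z hz hzF
      exact (Finset.disjoint_left.mp hFA) hzF (hD2 hz)
    have hGc : (insert x (D' ∪ F)).card = p := by
      rw [card_insert_of_notMem (by simp [hxD', hxF]), card_union_of_disjoint hdis, hD3, hF2]
      omega
    have hGA : insert x (D' ∪ F) ∩ A = D' := by
      ext z
      simp only [mem_inter, mem_insert, mem_union]
      constructor
      · rintro ⟨h | h | h, hz⟩
        · exact absurd (h ▸ hz) hxA
        · exact h
        · exact absurd hz ((Finset.disjoint_left.mp hFA) h)
      · intro hz
        exact ⟨Or.inr (Or.inl hz), hD2 hz⟩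
    have hGne : insert x (D' ∪ F) ≠ A := by
      intro h
      apply hxA
      rw [← h]
      exact mem_insert_self _ _
    have hGP : c (insert x (D' ∪ F)) = P x := by
      apply hP x hx _ hGc
      exact insert_subset_insert x (hD1.trans subset_union_left)
    have := hf _ A hGc hA hGne
    rw [hGP, hGA, hD3] at this
    exact this rfl

/-- Rigidity for large ground sets. -/
theorem rigid_large [Fintype α] {p : ℕ} (hp : 1 ≤ p) (c : Finset α → Finset β)
    (hc : ∀ A, A.card = p → (c A).card = p) (hf : Free p c)
    (hr : p + th p (p + 1) ≤ Fintype.card α) (hr2 : 2 * p ≤ Fintype.card α) :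
    ∃ P : Finset β, ∀ A : Finset α, A.card = p → c A = P := by
  obtain ⟨S, K, hT⟩ := exists_tree c hc hr p
  obtain ⟨P, hP⟩ := reach_const hc hf hT hr2 (p - 1) ∅ (by simp; omega) Reach.root
  exact ⟨P, fun A hA => hP A hA (empty_subset _)⟩

lemma th_eq (p k : ℕ) (hp : 2 ≤ p) : th p k + 1 ≤ p ^ (k + 1) := by
  induction k with
  | zero => simp [th]; omega
  | succ k ih =>
    have h1 : th p (k + 1) = p * th p k + 1 := rfl
    have h2 : p ^ (k + 1 + 1) = p * p ^ (k + 1) := by ring
    have h3 : p * (th p k + 1) ≤ p * p ^ (k + 1) := Nat.mul_le_mul_left _ ih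
    rw [h1, h2]
    have h4 : p * (th p k + 1) = p * th p k + p := by ring
    omega

end Pool.Agent.OHG
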