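import Pool.Agent.OHG.Rigid

namespace Pool.Agent.OHG

open Finset

variable {α β : Type*} [DecidableEq α] [DecidableEq β]

lemma pair_inter {a b d : α} (_hab : a ≠ b) (_had : a ≠ d) (hbd : b ≠ d) :
    (({a, b} : Finset α) ∩ {a, d}).card = 1 := by
  have : (({a, b} : Finset α) ∩ {a, d}) = {a} := by
    ext z
    simp only [mem_inter, mem_insert, mem_singleton]
    constructor
    · rintro ⟨h1 | h1, h2 | h2⟩
      · exact h1
      · exact h1
      · exact h2
      · exact absurd (h1.symm.trans h2) hbd
    · intro h; exact ⟨Or.inl h, Or.inl h⟩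
  rw [this, card_singleton]

lemma two_disj {c : Finset α → Finset β} (hc : ∀ A, A.card = 2 → (c A).card = 2)
    (hf : Free 2 c) {a b d : α} (hab : a ≠ b) (had : a ≠ d) (hbd : b ≠ d)
    (hne : c {a, b} ≠ c {a, d}) : (c {a, b} ∩ c {a, d}).card = 0 := by
  have h1 := hc {a, b} (card_pair hab)
  have h2 := hc {a, d} (card_pair had)
  have hAne : ({a, b} : Finset α) ≠ {a, d} := by
    intro h
    apply hne
    rw [h]
  have h3 := hf _ _ (card_pair hab) (card_pair had) hAne
  rw [pair_inter hab had hbd] at h3
  have h4 : (c {a, b} ∩ c {a, d}).card ≤ 2 := by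
    rw [← h1]; exact card_le_card inter_subset_left
  have h5 : (c {a, b} ∩ c {a, d}).card ≠ 2 := by
    intro h
    apply hne
    have e1 : c {a, b} ∩ c {a, d} = c {a, b} :=
      eq_of_subset_of_card_le inter_subset_left (by omega)
    have e2 : c {a, b} ∩ c {a, d} = c {a, d} :=
      eq_of_subset_of_card_le inter_subset_right (by omega)
    rw [← e1, e2]
  omega

lemma two_claim [Fintype α] {c : Finset α → Finset β}
    (hc : ∀ A, A.card = 2 → (c A).card = 2) (hf : Free 2 c) (hr : 5 ≤ Fintype.card α)
    {a b d : α} (hab : a ≠ b) (had : a ≠ d) (hbd : b ≠ d) (hne : c {a, b} ≠ c {a, d})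
    (e : α) (hea : e ≠ a) (heb : e ≠ b) (hed : e ≠ d) : c {a, e} ≠ c {a, b} := by
  -- a fifth element
  obtain ⟨f, hf0⟩ : ∃ f, f ∉ ({a, b, d, e} : Finset α) := by
    by_contra hno
    push Not at hno
    have h1 : (univ : Finset α) ⊆ {a, b, d, e} := fun z _ => hno z
    have h2 := card_le_card h1
    have h3 : ({a, b, d, e} : Finset α).card ≤ 4 := card_le_four
    rw [card_univ] at h2
    omega
  simp only [mem_insert, mem_singleton, not_or] at hf0
  obtain ⟨hfa, hfb, hfd, hfe⟩ := hf0
  have hef : e ≠ f := fun h => hfe h.symm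
  have hX := hc {e, f} (card_pair hef)
  have i1 : ({e, f} : Finset α) ∩ {a, b} = ∅ := by
    ext z
    simp only [mem_inter, mem_insert, mem_singleton, notMem_empty, iff_false, not_and, not_or]
    rintro (rfl | rfl)
    · exact ⟨hea, heb⟩
    · exact ⟨hfa, hfb⟩
  have i2 : ({e, f} : Finset α) ∩ {a, d} = ∅ := by
    ext z
    simp only [mem_inter, mem_insert, mem_singleton, notMem_empty, iff_false, not_and, not_or]
    rintro (rfl | rfl)
    · exact ⟨hea, hed⟩
    · exact ⟨hfa, hfd⟩
  have n1 : ({e, f} : Finset α) ≠ {a, b} := by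
    intro h
    rw [h, inter_self] at i1
    have := card_pair hab
    rw [i1] at this
    simp at this
  have n2 : ({e, f} : Finset α) ≠ {a, d} := by
    intro h
    rw [h, inter_self] at i2
    have := card_pair had
    rw [i2] at this
    simp at this
  have j1 := hf _ _ (card_pair hef) (card_pair hab) n1
  have j2 := hf _ _ (card_pair hef) (card_pair had) n2
  rw [i1, card_empty] at j1
  rw [i2, card_empty] at j2
  have hdis := two_disj hc hf hab had hbd hne
  have hsum : (c {e, f} ∩ c {a, b}).card + (c {e, f} ∩ c {a, d}).card ≤ 2 := by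
    rw [← card_union_of_disjoint, ← hX]
    · exact card_le_card (union_subset inter_subset_left inter_subset_left)
    · rw [Finset.disjoint_left]
      intro z hz1 hz2
      have : z ∈ c {a, b} ∩ c {a, d} :=
        mem_inter.mpr ⟨(mem_inter.mp hz1).2, (mem_inter.mp hz2).2⟩
      rw [card_eq_zero.mp hdis] at this
      simp at this
  intro heq
  have n3 : ({e, a} : Finset α) ≠ {e, f} := by
    intro h
    have : a ∈ ({e, f} : Finset α) := by rw [← h]; simp
    simp only [mem_insert, mem_singleton] at this
    rcases this with h | h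
    · exact hea h.symm
    · exact hfa h.symm
  have j3 := hf _ _ (card_pair hea) (card_pair hef) n3
  rw [pair_inter hea hef (fun h => hfa h.symm), pair_comm e a, heq, inter_comm] at j3
  omega

theorem rigid_two [Fintype α] [Fintype β] (c : Finset α → Finset β)
    (hc : ∀ A, A.card = 2 → (c A).card = 2) (hf : Free 2 c) (hr : 5 ≤ Fintype.card α)
    (hβ : Fintype.card β ≤ Fintype.card α) :
    ∃ P : Finset β, ∀ A : Finset α, A.card = 2 → c A = P := by
  -- adjacent pairs have the same image
  have hadj : ∀ a b d : α, a ≠ b → a ≠ d → c {a, b} = c {a, d} := by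
    intro a b d hab had
    by_contra hne
    have hbd : b ≠ d := by rintro rfl; exact hne rfl
    have hall : ∀ x y : α, x ≠ a → y ≠ a → x ≠ y → c {a, x} ≠ c {a, y} := by
      -- first: everything differs from b
      have hb : ∀ x, x ≠ a → x ≠ b → c {a, x} ≠ c {a, b} := by
        intro x hx hxb
        by_cases hxd : x = d
        · rw [hxd]; exact fun h => hne h.symm
        · exact two_claim hc hf hr hab had hbd hne x hx hxb hxd
      intro x y hx hy hxy
      by_cases hyb : y = b
      · rw [hyb]; exact hb x hx (by rw [← hyb]; exact hxy)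
      · by_cases hxb : x = b
        · rw [hxb]
          exact fun h => hb y hy hyb h.symm
        · -- pair (y, b) differs; third element x
          exact two_claim hc hf hr (Ne.symm hy) hab hyb (hb y hy hyb) x hx hxy hxb
    have hcard : ((univ.erase a).biUnion (fun x => c {a, x})).card =
        2 * (Fintype.card α - 1) := by
      rw [card_biUnion]
      · rw [sum_congr rfl (g := fun _ => 2)]
        · rw [sum_const, card_erase_of_mem (mem_univ a), card_univ, smul_eq_mul, mul_comm]
        · intro x hx
          exact hc _ (card_pair (Ne.symm (mem_erase.mp hx).1))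
      · intro x hx y hy hxy
        have hx' := (mem_erase.mp hx).1
        have hy' := (mem_erase.mp hy).1
        change Disjoint (c {a, x}) (c {a, y})
        rw [Finset.disjoint_iff_inter_eq_empty, ← card_eq_zero]
        exact two_disj hc hf (Ne.symm hx') (Ne.symm hy') hxy (hall x y hx' hy' hxy)
    have hle := card_le_univ ((univ.erase a).biUnion (fun x => c {a, x}))
    omega
  obtain ⟨A0, hA0⟩ : ∃ A0 : Finset α, A0.card = 2 := by
    obtain ⟨t, ht1, ht2⟩ := exists_subset_card_eq (s := (univ : Finset α)) (n := 2)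
      (by rw [card_univ]; omega)
    exact ⟨t, ht2⟩
  obtain ⟨d, e, hde, rfl⟩ := card_eq_two.mp hA0
  refine ⟨c {d, e}, ?_⟩
  intro A hA
  obtain ⟨a, b, hab, rfl⟩ := card_eq_two.mp hA
  by_cases had : a = d
  · subst had; exact hadj a b e hab hde
  · rw [hadj a b d hab had, pair_comm a d]
    exact hadj d a e (Ne.symm had) hde

/-- Duality: complementing sets and images. -/
lemma free_dual [Fintype α] [Fintype β] {q m : ℕ} (c : Finset α → Finset β)
    (hα : q + m = Fintype.card α) (hβ : q + m = Fintype.card β)
    (hc : ∀ A, A.card = q → (c A).card = q) (hf : Free q c) :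
    Free m (fun A => (c Aᶜ)ᶜ) := by
  intro A A' hA hA' hne heq
  have h1 : (Aᶜ).card = q := by rw [card_compl]; omega
  have h2 : (A'ᶜ).card = q := by rw [card_compl]; omega
  have h3 : Aᶜ ≠ A'ᶜ := fun h => hne (compl_inj_iff.mp h)
  apply hf _ _ h1 h2 h3
  have k1 := card_union_add_card_inter A A'
  have k2 := card_union_add_card_inter (c Aᶜ) (c A'ᶜ)
  have k3 : ((c Aᶜ)ᶜ ∩ (c A'ᶜ)ᶜ).card = Fintype.card β - (c Aᶜ ∪ c A'ᶜ).card := by
    rw [← compl_union, card_compl]
  have k4 : (Aᶜ ∩ A'ᶜ).card = Fintype.card α - (A ∪ A').card := by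
    rw [← compl_union, card_compl]
  have k5 := hc _ h1
  have k6 := hc _ h2
  have k7 : (c Aᶜ ∪ c A'ᶜ).card ≤ Fintype.card β := card_le_univ _
  have k8 : (A ∪ A').card ≤ Fintype.card α := card_le_univ _
  simp only at heq
  rw [k3] at heq
  rw [k4]
  omega

end Pool.Agent.OHG
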